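import Pool.Agent.Helper41.Girth4.Stmts

/-!
# Packet J for MP_246f82_co: counting dependencies
-/

set_option autoImplicit false

namespace Pool.Agent.Helper80.Girth4

open Pool.Agent.Helper41.Girth4

universe u

variable {V : Type u} (H : PG V)

theorem exE (d : V × Fin 4) (c : Fin 3) :
    ∃ e : Fin 3, (d.2.succAbove c).succAbove e = d.2 :=
  Fin.exists_succAbove_eq (Fin.succAbove_ne d.2 c).symm

/-- The backward choice. -/
noncomputable def bk (d : V × Fin 4) (c : Fin 3) : Fin 3 := (exE d c).choose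

theorem bk_spec (d : V × Fin 4) (c : Fin 3) :
    (d.2.succAbove c).succAbove (bk d c) = d.2 := (exE d c).choose_spec

/-- The backward word. -/
noncomputable def backw : V × Fin 4 → List (Fin 3) → List (Fin 3)
  | _, [] => []
  | d, c :: w => bk d c :: backw (H.step d c) w

theorem length_backw (w : List (Fin 3)) : ∀ d, (backw H d w).length = w.length := by
  induction w with
  | nil => intro d; rfl
  | cons c w ih => intro d; simp [backw, ih]

theorem step_inj {d d' : V × Fin 4} {c c' : Fin 3} (h : H.step d c = H.step d' c')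
    (hb : bk d c = bk d' c') : d = d' ∧ c = c' := by
  obtain ⟨u, q⟩ := d
  obtain ⟨u', q'⟩ := d'
  have h1 : H.nb u (q.succAbove c) = H.nb u' (q'.succAbove c') := congrArg Prod.fst h
  have h2 : H.rev u (q.succAbove c) = H.rev u' (q'.succAbove c') := congrArg Prod.snd h
  have hu : u = u' := by
    rw [← H.nb_rev u (q.succAbove c), ← H.nb_rev u' (q'.succAbove c'), h1, h2]
  have ho : q.succAbove c = q'.succAbove c' := by
    rw [← H.rev_rev u (q.succAbove c), ← H.rev_rev u' (q'.succAbove c'), h1, h2]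
  have hq : q = q' := by
    have e1 := bk_spec (u, q) c
    have e2 := bk_spec (u', q') c'
    simp only at e1 e2
    rw [← e1, ← e2, ho, hb]
  subst hu hq
  exact ⟨rfl, Fin.succAbove_right_injective ho⟩

theorem go_inj (w : List (Fin 3)) : ∀ (w' : List (Fin 3)) (d d' : V × Fin 4),
    H.go d w = H.go d' w' → backw H d w = backw H d' w' → d = d' ∧ w = w' := by
  induction w with
  | nil =>
    intro w' d d' hg hb
    cases w' with
    | nil => exact ⟨hg, rfl⟩
    | cons c w' => simp [backw] at hb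
  | cons c w ih =>
    intro w' d d' hg hb
    cases w' with
    | nil => simp [backw] at hb
    | cons c' w' =>
      simp only [backw, List.cons.injEq] at hb
      simp only [PG.go] at hg
      obtain ⟨h1, h2⟩ := ih w' _ _ hg hb.2
      obtain ⟨h3, h4⟩ := step_inj H h1 hb.1
      exact ⟨h3, by rw [h4, h2]⟩

/-- Padding a list to a function. -/
def pad (m : ℕ) (l : List (Fin 3)) : Fin m → Fin 3 := fun i => l.getD i 0

theorem pad_inj {m : ℕ} {l l' : List (Fin 3)} (h : pad m l = pad m l')
    (hl : l.length = l'.length) (hm : l.length ≤ m) : l = l' := by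
  apply List.ext_getElem hl
  intro i h1 h2
  have := congrFun h ⟨i, h1.trans_le hm⟩
  simp only [pad] at this
  rw [List.getD_eq_getElem _ _ h1, List.getD_eq_getElem _ _ h2] at this
  exact this

theorem stmtCount : StmtCount.{u} := by
  intro D₀
  refine ⟨4 * (D₀ + 1) ^ 2 * 3 ^ D₀ * 3 ^ D₀, ?_⟩
  intro V V' _ f hf H n j
  classical
  have key : ∀ j' : {j' : V × Fin 4 × (Fin n → Fin 3) //
      ¬ Disjoint (supp H D₀ (f j.1, j.2.1) (List.ofFn j.2.2))
        (supp H D₀ (f j'.1, j'.2.1) (List.ofFn j'.2.2))},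
      ∃ (k : ℕ) (z : List (Fin 3)) (k' : ℕ) (z' : List (Fin 3)),
        k ≤ n ∧ z.length ≤ D₀ ∧ k' ≤ n ∧ z'.length ≤ D₀ ∧
        (H.go (f j.1, j.2.1) ((List.ofFn j.2.2).take k ++ z)).1 =
          (H.go (f j'.1.1, j'.1.2.1) ((List.ofFn j'.1.2.2).take k' ++ z')).1 := by
    rintro ⟨j', hj'⟩
    rw [Set.not_disjoint_iff] at hj'
    obtain ⟨x, ⟨y, ⟨k, z, hk, rfl, hz⟩, hy⟩, ⟨y', ⟨k', z', hk', rfl, hz'⟩, hy'⟩⟩ := hj'
    refine ⟨k, z, k', z', ?_, hz, ?_, hz', ?_⟩
    · simpa using hk
    · simpa using hk'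
    · exact hy.trans hy'.symm
  choose k z k' z' hk hz hk' hz' heq using key
  let dd := fun j' : {j' : V × Fin 4 × (Fin n → Fin 3) //
      ¬ Disjoint (supp H D₀ (f j.1, j.2.1) (List.ofFn j.2.2))
        (supp H D₀ (f j'.1, j'.2.1) (List.ofFn j'.2.2))} => (f j'.1.1, j'.1.2.1)
  let ww := fun j' : {j' : V × Fin 4 × (Fin n → Fin 3) //
      ¬ Disjoint (supp H D₀ (f j.1, j.2.1) (List.ofFn j.2.2))
        (supp H D₀ (f j'.1, j'.2.1) (List.ofFn j'.2.2))} => List.ofFn j'.1.2.2
  let L := fun j' => backw H (dd j') ((ww j').take (k' j') ++ z' j') ++ (ww j').drop (k' j')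
  have hww : ∀ j', (ww j').length = n := fun j' => by simp [ww]
  have htk : ∀ j', ((ww j').take (k' j')).length = k' j' := fun j' => by
    rw [List.length_take, hww, min_eq_left (hk' j')]
  have hbl : ∀ j', (backw H (dd j') ((ww j').take (k' j') ++ z' j')).length
      = k' j' + (z' j').length := fun j' => by
    rw [length_backw, List.length_append, htk]
  have hLl : ∀ j', (L j').length = n + (z' j').length := fun j' => by
    simp only [L]
    rw [List.length_append, hbl, List.length_drop, hww]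
    have := hk' j'
    omega
  let enc := fun j' : {j' : V × Fin 4 × (Fin n → Fin 3) //
      ¬ Disjoint (supp H D₀ (f j.1, j.2.1) (List.ofFn j.2.2))
        (supp H D₀ (f j'.1, j'.2.1) (List.ofFn j'.2.2))} =>
    ((((⟨k j', Nat.lt_succ_of_le (hk j')⟩ : Fin (n + 1)),
      (⟨(z j').length, Nat.lt_succ_of_le (hz j')⟩ : Fin (D₀ + 1)), pad D₀ (z j')),
      ((⟨k' j', Nat.lt_succ_of_le (hk' j')⟩ : Fin (n + 1)),
      (⟨(z' j').length, Nat.lt_succ_of_le (hz' j')⟩ : Fin (D₀ + 1))),
      (H.go (dd j') ((ww j').take (k' j') ++ z' j')).2, pad (n + D₀) (L j')) :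
      (Fin (n + 1) × Fin (D₀ + 1) × (Fin D₀ → Fin 3)) × (Fin (n + 1) × Fin (D₀ + 1)) ×
        Fin 4 × (Fin (n + D₀) → Fin 3))
  have hinj : Function.Injective enc := by
    intro a b hab
    simp only [enc, Prod.mk.injEq, Fin.mk.injEq] at hab
    obtain ⟨⟨e1, e2, e3⟩, ⟨e4, e5⟩, e6, e7⟩ := hab
    have hzz : z a = z b := pad_inj e3 e2 (hz a)
    have hL : L a = L b := pad_inj e7 (by rw [hLl, hLl, e5]) (by rw [hLl]; have := hz' a; omega)
    have hs := List.append_inj hL (by rw [hbl, hbl, e4, e5])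
    obtain ⟨hs1, hs2⟩ := hs
    have hx : (H.go (dd a) ((ww a).take (k' a) ++ z' a)).1
        = (H.go (dd b) ((ww b).take (k' b) ++ z' b)).1 := by
      rw [← heq a, ← heq b, e1, hzz]
    have hg : H.go (dd a) ((ww a).take (k' a) ++ z' a)
        = H.go (dd b) ((ww b).take (k' b) ++ z' b) := Prod.ext hx e6
    obtain ⟨hd, hw⟩ := go_inj H _ _ _ _ hg hs1
    have ht := (List.append_inj hw (by rw [htk, htk, e4])).1
    have hw' : ww a = ww b := by
      rw [← List.take_append_drop (k' a) (ww a), ← List.take_append_drop (k' b) (ww b), ht, hs2]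
    simp only [dd, Prod.mk.injEq] at hd
    apply Subtype.ext
    refine Prod.ext (hf hd.1) (Prod.ext hd.2 ?_)
    exact List.ofFn_injective hw'
  refine (Nat.card_le_card_of_injective enc hinj).trans (le_of_eq ?_)
  simp only [Nat.card_eq_fintype_card, Fintype.card_prod, Fintype.card_fin, Fintype.card_pi,
    Finset.prod_const, Finset.card_univ]
  ring

end Pool.Agent.Helper80.Girth4
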